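import Mathlib

set_option autoImplicit false

namespace Pool.Agent.Results.MP_6b7ad2_lc.Gdelta

open Set Topology TopologicalSpace Relation

variable {G X : Type*} [Group G] [MulAction G X]

/-- The `(U,V)`-local graph. -/
def Edge (U : Set X) (V : Set G) (x y : X) : Prop := x ∈ U ∧ y ∈ U ∧ ∃ g ∈ V, g • x = y

/-- The local orbit: the connected component of `x` in the local graph. -/
def LocOrb (x : X) (U : Set X) (V : Set G) : Set X := {y | ReflTransGen (Edge U V) x y}

/-- Turbulent points. -/
def Turbulent (G : Type*) [Group G] [MulAction G X] [TopologicalSpace G] [TopologicalSpace X]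
    (x : X) : Prop :=
  ∀ U : Set X, IsOpen U → x ∈ U → ∀ V : Set G, IsOpen V → 1 ∈ V → (∀ g ∈ V, g⁻¹ ∈ V) →
    (interior (closure (LocOrb x U V))).Nonempty

section
variable [TopologicalSpace X] [ContinuousConstSMul G X] {U : Set X} {V : Set G}
  (hU : IsOpen U) (hV : ∀ g ∈ V, g⁻¹ ∈ V)
include hU hV

omit hU [TopologicalSpace X] [ContinuousConstSMul G X] in
theorem symm {x y : X} (h : y ∈ LocOrb x U V) : x ∈ LocOrb y U V := by
  induction h with
  | refl => exact .refl
  | tail _ e ih =>
    obtain ⟨h1, h2, g, hg, rfl⟩ := e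
    exact .head ⟨h2, h1, g⁻¹, hV g hg, by simp⟩ ih

omit hV in
theorem step {x z : X} {g : G} (hg : g ∈ V) (hz : z ∈ closure (LocOrb x U V)) (h1 : z ∈ U)
    (h2 : g • z ∈ U) : g • z ∈ closure (LocOrb x U V) := by
  have := (hU.inter (hU.preimage (continuous_const_smul g))).inter_closure ⟨⟨h1, h2⟩, hz⟩
  exact map_mem_closure (continuous_const_smul g) this
    fun w hw => hw.2.tail ⟨hw.1.1, hw.1.2, g, hg, rfl⟩

omit hV in
theorem step' {x z y : X} (hz : z ∈ interior (closure (LocOrb x U V))) (h : y ∈ LocOrb z U V) :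
    y ∈ interior (closure (LocOrb x U V)) := by
  induction h with
  | refl => exact hz
  | @tail b _ _ e ih =>
    obtain ⟨h1, h2, g, hg, rfl⟩ := e
    refine mem_interior.2 ⟨(g • ·) '' (interior (closure (LocOrb x U V)) ∩ U ∩ (g • ·) ⁻¹' U), ?_,
      isOpenMap_smul g _ ((isOpen_interior.inter hU).inter
        (hU.preimage (continuous_const_smul g))), b, ⟨⟨ih, h1⟩, h2⟩, rfl⟩
    rintro _ ⟨w, hw, rfl⟩
    exact step hU hg (interior_subset hw.1.1) hw.1.2 hw.2

theorem sub {x y : X} (h : (interior (closure (LocOrb x U V)) ∩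
    interior (closure (LocOrb y U V))).Nonempty) :
    LocOrb x U V ⊆ interior (closure (LocOrb y U V)) := by
  obtain ⟨w, h1, h2⟩ := h
  obtain ⟨z, ⟨-, h3⟩, h4⟩ := mem_closure_iff.1 (interior_subset h1) _
    (isOpen_interior.inter isOpen_interior) ⟨h1, h2⟩
  exact fun v hv => step' hU h3 ((symm hV h4).trans hv)

omit hV in
theorem open_meet {B : Set X} (hB : IsOpen B) : IsOpen {y | (LocOrb y U V ∩ B).Nonempty} := by
  refine isOpen_iff_mem_nhds.2 ?_
  rintro y ⟨w, h1, h2⟩
  induction h1 using ReflTransGen.head_induction_on with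
  | refl => exact Filter.mem_of_superset (hB.mem_nhds h2) fun z hz => ⟨z, .refl, hz⟩
  | @head a _ e _ ih =>
    obtain ⟨h3, h4, g, hg, rfl⟩ := e
    filter_upwards [hU.mem_nhds h3, (continuous_const_smul g).continuousAt (hU.mem_nhds h4),
      (continuous_const_smul g).continuousAt ih] with z a1 a2 ⟨v, a3, a4⟩
    exact ⟨v, .head ⟨a1, a2, g, hg, rfl⟩ a3, a4⟩

theorem gd [SecondCountableTopology X] :
    IsGδ {x | (interior (closure (LocOrb x U V))).Nonempty} := by
  have : {x | (interior (closure (LocOrb x U V))).Nonempty} =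
      (⋃ x, interior (closure (LocOrb x U V))) ∩ ⋂ B ∈ countableBasis X,
        ⋃ x, interior (closure (LocOrb x U V)) ∩
          {y | (interior (closure (LocOrb x U V)) ∩ B).Nonempty → (LocOrb y U V ∩
            (interior (closure (LocOrb x U V)) ∩ B)).Nonempty} := by
    ext y
    simp only [mem_ofPred_eq, mem_inter_iff, mem_iUnion, mem_iInter]
    constructor
    · rintro ⟨w, hw⟩
      have h := sub hU hV (x := y) (y := y) ⟨w, hw, hw⟩ .refl
      refine ⟨⟨y, h⟩, fun B hB => ⟨y, h, fun ⟨v, h1, h2⟩ => ?_⟩⟩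
      rw [inter_comm]
      exact mem_closure_iff.1 (interior_subset h1) _
        (isOpen_interior.inter (isOpen_of_mem_countableBasis hB)) ⟨h1, h2⟩
    · rintro ⟨⟨x, hx⟩, h⟩
      refine ⟨y, interior_maximal (fun v hv => ?_) isOpen_interior hx⟩
      refine (isBasis_countableBasis X).mem_closure_iff.2 fun B hB hvB => ?_
      obtain ⟨x', h1, h2⟩ := h B hB
      have : v ∈ interior (closure (LocOrb x' U V)) := interior_mono (closure_minimal
        ((sub hU hV ⟨y, hx, h1⟩).trans interior_subset) isClosed_closure) hv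
      obtain ⟨u, h3, -, h4⟩ := h2 ⟨v, this, hvB⟩
      exact ⟨u, h4, h3⟩
  rw [this]
  refine (isOpen_iUnion fun _ => isOpen_interior).isGδ.inter
    (.biInter_of_isOpen (countable_countableBasis X) fun B hB => isOpen_iUnion fun x =>
      isOpen_interior.inter ?_)
  by_cases h : (interior (closure (LocOrb x U V)) ∩ B).Nonempty
  · simpa [h] using open_meet hU (isOpen_interior.inter (isOpen_of_mem_countableBasis hB))
  · simp [h]

end

theorem result {G X : Type*} [Group G] [TopologicalSpace G] [IsTopologicalGroup G] [PolishSpace G]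
    [TopologicalSpace X] [PolishSpace X] [MulAction G X] [ContinuousSMul G X] :
    IsGδ {x : X | Turbulent G x} := by
  have : {x : X | Turbulent G x} = ⋂ U ∈ countableBasis X, ⋂ V ∈ countableBasis G,
      ({x | (1 : G) ∉ V} ∪ Uᶜ ∪ {x | (interior (closure (LocOrb x U (V ∩ V⁻¹)))).Nonempty}) := by
    ext x
    simp only [mem_ofPred_eq, mem_iInter, mem_union, mem_compl_iff]
    constructor
    · intro h U hU V hV
      by_contra hn
      push Not at hn
      have hV := isOpen_of_mem_countableBasis hV
      exact (h U (isOpen_of_mem_countableBasis hU) hn.1.2 _ (hV.inter hV.inv)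
        (by simpa using hn.1.1) (by simp +contextual)).ne_empty hn.2
    · intro h U hU hx V hV h1 _
      obtain ⟨U', a1, a2, a3⟩ := (isBasis_countableBasis X).exists_subset_of_mem_open hx hU
      obtain ⟨V', b1, b2, b3⟩ := (isBasis_countableBasis G).exists_subset_of_mem_open h1 hV
      refine ((h U' a1 V' b1).resolve_left (by simp [a2, b2])).mono
        (interior_mono (closure_mono fun y hy => ReflTransGen.mono ?_ x y hy))
      rintro a b ⟨c1, c2, g, hg, e⟩
      exact ⟨a3 c1, a3 c2, g, b3 hg.1, e⟩
  rw [this]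
  refine .biInter (countable_countableBasis X) fun U hU => .biInter (countable_countableBasis G)
    fun V hV => .union (.union ?_ (isOpen_of_mem_countableBasis hU).isClosed_compl.isGδ)
      (gd (isOpen_of_mem_countableBasis hU) (by simp +contextual))
  by_cases h : (1 : G) ∈ V <;> simp [h]

end Pool.Agent.Results.MP_6b7ad2_lc.Gdelta
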